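import Pool.Agent.K1H2.UB.Stm

/-!
# Piece PT: upper bound for one site
-/

set_option autoImplicit false

open scoped ENNReal
open Finset Pool.Agent.K1H53.BI Pool.Agent.K1H2.UB

namespace Pool.Agent.K1H25.UB

theorem Psi_nonneg (lam kp u : ℝ) (hl : 0 ≤ lam) : 0 ≤ Psi lam kp u := by
  unfold Psi
  split_ifs
  · exact mul_nonneg hl (le_max_right _ _)
  · exact le_refl _

theorem Psi_le (lam kp u : ℝ) (hl : 0 ≤ lam) (hk : 0 ≤ kp) (hu : u ≤ 1) :
    Psi lam kp u ≤ lam * max u 0 := by
  unfold Psi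
  split_ifs with h
  · apply mul_le_mul_of_nonneg_left _ hl
    apply max_le_max _ le_rfl
    have h1 : Real.log u ≤ 0 := Real.log_nonpos h.le hu
    have h2 : 0 ≤ kp * (u * (1 - Real.log u)) :=
      mul_nonneg hk (mul_nonneg h.le (by linarith))
    linarith
  · exact mul_nonneg hl (le_max_right _ _)

theorem Psi_ge (lam kp u : ℝ) (hl : 0 ≤ lam) (hu : 0 < u) :
    lam * (u - kp * (u * (1 - Real.log u))) ≤ Psi lam kp u := by
  unfold Psi
  rw [if_pos hu]
  exact mul_le_mul_of_nonneg_left (le_max_left _ _) hl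

theorem vol_le (N T : ℕ) (h : (N : ℝ) ≤ rad T) :
    4 * Real.pi / 3 * (N : ℝ) ^ 3 ≤ T := by
  have hpi := Real.pi_pos
  have h0 : (0 : ℝ) ≤ 3 * (T : ℝ) / (4 * Real.pi) := by positivity
  have h1 : (N : ℝ) ^ 3 ≤ (rad T) ^ 3 := pow_le_pow_left₀ (Nat.cast_nonneg N) h 3
  have h2 : (rad T) ^ 3 = 3 * (T : ℝ) / (4 * Real.pi) := by
    unfold rad
    rw [← Real.rpow_natCast, ← Real.rpow_mul h0]
    norm_num
  rw [h2, le_div_iff₀ (by positivity)] at h1
  linarith

/-- **Piece PT.** -/
theorem t_PT : S_PT := by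
  intro hcrit hpsi hreg ν hν
  obtain ⟨C1, hC1, hcr⟩ := hcrit ν hν
  obtain ⟨C, hC, hrg⟩ := hreg
  obtain ⟨K, hK, hps⟩ := hpsi C1 C hC1 hC
  have hC0 : 0 < C := by linarith
  have hK0 : 0 < K := by linarith
  have hKC : 1 ≤ K * C := by nlinarith
  set c' : ℝ := 1 / (3 * K * C) with hc'
  have hc'0 : 0 < c' := by positivity
  have hc'1 : c' ≤ 1 := by
    rw [hc', div_le_one (by positivity)]
    nlinarith
  have hc'K : c' ≤ 1 / K := by
    rw [hc']
    apply one_div_le_one_div_of_le hK0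
    nlinarith
  have hc0 : 0 < c' / C := by positivity
  refine ⟨c' / C, max 3 ⌈C⌉₊, hc0, ?_⟩
  intro T N z hN hT hz hd
  have hN3 : 3 ≤ N := le_trans (le_max_left _ _) hN
  have hCN : C ≤ N := (Nat.le_ceil C).trans (by exact_mod_cast le_trans (le_max_right _ _) hN)
  have hN3' : (3 : ℝ) ≤ N := by exact_mod_cast hN3
  have hN0 : (0 : ℝ) < N := by linarith
  have hlog : 1 ≤ Real.log N := by
    rw [Real.le_log_iff_exp_le hN0]
    have := Real.exp_one_lt_d9
    linarith
  have hlog0 : 0 < Real.log N := by linarith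
  set del : ℝ := (N : ℝ) - nrm z with hdel
  have hsq : 0 < Real.sqrt N := Real.sqrt_pos.2 hN0
  have hdel0 : 0 < del := lt_of_lt_of_le (by positivity) hd
  have hCd : C * Real.sqrt N ≤ del := by
    refine le_trans ?_ hd
    rw [le_div_iff₀ hc0]
    have : C * Real.sqrt N * (c' / C) = c' * Real.sqrt N := by
      field_simp
    rw [this]
    nlinarith
  obtain ⟨u, hu⟩ := hrg N z hCN hz hCd
  set lam : ℝ := c' / (N * Real.log N) with hlam
  have hlam0 : 0 < lam := by positivity
  have hNl : 1 ≤ (N : ℝ) * Real.log N := by nlinarith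
  have hlamK : lam ≤ 1 / K := by
    refine le_trans ?_ hc'K
    rw [hlam]
    exact div_le_self hc'0.le hNl
  have hkap0 : 0 ≤ lam * K * del := by positivity
  have hvol := vol_le N T hT
  have hpi := Real.pi_pos
  have hT1 : 1 ≤ T := by
    by_contra h
    have h0 : T = 0 := by omega
    rw [h0] at hvol
    have : 0 < 4 * Real.pi / 3 * (N : ℝ) ^ 3 := by positivity
    norm_num at hvol
    linarith
  have key := hcr N T z (fun x => Psi lam (lam * K * del) (u x)) hT1 hz
    (fun x => Psi_nonneg _ _ _ hlam0.le)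
    (fun x hx => by
      have := hu.out x hx
      unfold Psi
      rw [if_neg (not_lt.2 this)])
    (fun x hx => by
      have h := hps lam del (u x) (fun e => u (x + dir e)) hlam0 hlamK hdel0 (hu.le_one x)
        (fun e => hu.le_one _) (fun h => hu.sub x hx h) (fun h e' => hu.grad x hx h e')
      unfold PP
      exact h)
  refine key.trans (ENNReal.ofReal_le_ofReal (Real.exp_le_exp.2 ?_))
  have hu0 : 0 < u 0 := lt_of_lt_of_le (by positivity) hu.low
  have hlogu : 1 - Real.log (u 0) ≤ 3 * Real.log N := by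
    have h1 : Real.log (1 / (N : ℝ) ^ 2) ≤ Real.log (u 0) :=
      Real.log_le_log (by positivity) hu.low
    have h2 : Real.log (1 / (N : ℝ) ^ 2) = - (2 * Real.log N) := by
      rw [one_div, Real.log_inv, Real.log_pow]
      norm_num
    linarith
  have hkl : lam * K * del * (1 - Real.log (u 0)) ≤ del / (C * N) := by
    refine (mul_le_mul_of_nonneg_left hlogu hkap0).trans (le_of_eq ?_)
    rw [hlam, hc']
    field_simp
  have hb0 : lam * u 0 * (1 - del / (C * N)) ≤ Psi lam (lam * K * del) (u 0) := by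
    refine le_trans ?_ (Psi_ge lam _ _ hlam0.le hu0)
    have : lam * u 0 * (1 - del / (C * N)) ≤
        lam * u 0 * (1 - lam * K * del * (1 - Real.log (u 0))) :=
      mul_le_mul_of_nonneg_left (by linarith) (by positivity)
    refine this.trans (le_of_eq (by ring))
  have hb0' : 0 ≤ Psi lam (lam * K * del) (u 0) := Psi_nonneg _ _ _ hlam0.le
  have hTb : lam * (∑ y ∈ (ballF N).erase z, max (u y) 0 + del ^ 2 / C) ≤
      T * Psi lam (lam * K * del) (u 0) := by
    calc lam * (∑ y ∈ (ballF N).erase z, max (u y) 0 + del ^ 2 / C)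
        ≤ lam * (4 * Real.pi / 3 * N ^ 3 * u 0 * (1 - del / (C * N))) :=
          mul_le_mul_of_nonneg_left hu.tot hlam0.le
      _ = 4 * Real.pi / 3 * N ^ 3 * (lam * u 0 * (1 - del / (C * N))) := by ring
      _ ≤ 4 * Real.pi / 3 * N ^ 3 * Psi lam (lam * K * del) (u 0) :=
          mul_le_mul_of_nonneg_left hb0 (by positivity)
      _ ≤ T * Psi lam (lam * K * del) (u 0) := mul_le_mul_of_nonneg_right hvol hb0'
  have hsum : ∑ y ∈ (ballF N).erase z, Psi lam (lam * K * del) (u y) ≤
      lam * ∑ y ∈ (ballF N).erase z, max (u y) 0 := by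
    rw [Finset.mul_sum]
    exact Finset.sum_le_sum fun y _ => Psi_le lam _ _ hlam0.le hkap0 (hu.le_one y)
  have hfin : lam * (del ^ 2 / C) = c' / C * del ^ 2 / (N * Real.log N) := by
    rw [hlam]
    field_simp
  have h3 : lam * (∑ y ∈ (ballF N).erase z, max (u y) 0 + del ^ 2 / C) =
      lam * ∑ y ∈ (ballF N).erase z, max (u y) 0 + lam * (del ^ 2 / C) := by ring
  rw [← hfin]
  show -((T : ℝ) * Psi lam (lam * K * del) (u 0)) +
    ∑ y ∈ (ballF N).erase z, Psi lam (lam * K * del) (u y) ≤ -(lam * (del ^ 2 / C))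
  linarith

end Pool.Agent.K1H25.UB
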